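import Pool.Agent.H87.Dn.Final

/-!
# Analytic maximal almost disjoint families modulo arbitrary density ideals

* `Dat`: a density ideal is given by pairwise disjoint finite sets `b 0, b 1, …` of natural numbers
  and weights `w x ≥ 0`. `mu M n A` is the sum of the weights of the points of `b n` in `A`; the total
  masses of the `b n` are arbitrary (also unbounded). `Z M` is the density ideal, the set of all `A`
  for which `mu M n A` tends to `0`. (A sequence of measures `μ_n` with pairwise disjoint finite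
  supports is the same as such weights.)
* `Z0` is the density zero ideal, in its usual definition.
* `fd f A n` is `∑_{i < n, i ∈ A} f i / ∑_{i < n} f i` and `Zf f` is the set of all `A` for which this
  tends to `0`; for `f = 1` this is `Z0` (`Z0_eq`), for `f i = 1 / (i + 1)` the sets of logarithmic
  density zero. All Erdős-Ulam ideals are of this form.
* `IsAnalyticFamily 𝒜`: the set of characteristic functions of the members of `𝒜` is analytic.
* `IsAD I 𝒜`: the members of `𝒜` are not in `I`, the intersections of two distinct members are.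
  `IsMAD I 𝒜`: moreover every `X ∉ I` has an intersection `X ∩ A ∉ I` with some member `A` of `𝒜`.
* `trunc M` is `M` with the weights `min (w x) 1` (it defines the same ideal, `Z_trunc`), and `U F` is
  the union of the members of `F`.
-/

namespace Pool.Agent.Results.MP_af84fe_lc.AllDensityIdeals

open Filter Topology Pool.Agent.H87.Dn

/-- **Analytic maximal almost disjoint families modulo density ideals.** -/
theorem result :
    -- Q1: every analytic `Z0`-MAD family is countable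
    (∀ 𝒜 : Set (Set ℕ), IsAnalyticFamily 𝒜 → IsMAD Z0 𝒜 → 𝒜.Countable) ∧
    -- the same for every density ideal; only finitely many members are large
    (∀ (M : Dat) (𝒜 : Set (Set ℕ)), IsAnalyticFamily 𝒜 → IsMAD (Z M) 𝒜 →
      𝒜.Countable ∧ ∀ δ : ℝ, 0 < δ → {A | A ∈ 𝒜 ∧ ∃ᶠ n in atTop, δ ≤ mu M n A}.Finite) ∧
    -- an analytic almost disjoint family is maximal if and only if its finite subfamilies cover
    -- the sets of bounded mass up to sets of small norm
    (∀ (M : Dat) (𝒜 : Set (Set ℕ)), IsAnalyticFamily 𝒜 → IsAD (Z M) 𝒜 →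
      (IsMAD (Z M) 𝒜 ↔ ∀ T : Set ℕ, (∃ C, ∀ n, mu (trunc M) n T ≤ C) → ∀ ε : ℝ, 0 < ε →
        ∃ F : Finset (Set ℕ), (∀ A ∈ F, A ∈ 𝒜) ∧ ∀ᶠ n in atTop, mu M n (T \ U F) < ε)) ∧
    -- weights on `ℕ` with infinite sum
    (∀ f : ℕ → ℝ, (∀ n, 0 ≤ f n) → Tendsto (fun n => ∑ i ∈ Finset.range n, f i) atTop atTop →
      (∃ M : Dat, Z M = Zf f) ∧
      ∀ 𝒜 : Set (Set ℕ), IsAnalyticFamily 𝒜 → IsAD (Zf f) 𝒜 →
        (IsMAD (Zf f) 𝒜 ↔ ∀ ε : ℝ, 0 < ε → ∃ F : Finset (Set ℕ), (∀ A ∈ F, A ∈ 𝒜) ∧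
          ∀ᶠ n in atTop, fd f (⋃ A ∈ F, A)ᶜ n < ε)) ∧
    -- finite and infinite families
    (∀ M : Dat,
      ((∀ 𝒜 : Set (Set ℕ), IsAnalyticFamily 𝒜 → IsMAD (Z M) 𝒜 → 𝒜.Finite) ↔
        ∃ S : Set ℕ, Z M = {A | (A ∩ S).Finite}) ∧
      ((∃ 𝒜 : Set (Set ℕ), 𝒜.Countable ∧ 𝒜.Infinite ∧ IsMAD (Z M) 𝒜) ↔
        ¬ ∃ S : Set ℕ, Z M = {A | (A ∩ S).Finite})) :=
  ⟨zero_countable, fun M _ h hmad => mad_countable M h hmad, fun M _ h hAD => mad_iff M h hAD,
    fun _ hf hS => ⟨let ⟨M, _, hM, _⟩ := exists_dat hf hS; ⟨M, hM⟩,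
      fun _ h hAD => mad_iff_weights hf hS h hAD⟩,
    fun M => ⟨dichotomy M, infinite_iff M⟩⟩

end Pool.Agent.Results.MP_af84fe_lc.AllDensityIdeals
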